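import Mathlib
import Pool.Agent.Run7.h185.GJump
import Pool.Agent.Run7.h185.GJumpMain

/-!
Iterated group jumps are in general not single group jumps: for all countably infinite groups
`G`, `H` and `E` the equality relation of a Polish space with at least two points,
`(E^[G])^[H]` is not even Borel reducible to `E^[K]` for any countable group `K`.
-/

namespace Pool.Agent.Results.MP_9b97c3_lc.IteratedJump

open Run7.h185.GJump Topology

/-- `E ≤_B F`: some Borel map `f` satisfies `x E x' ↔ f x F f x'`. -/
def BorelReducible {X Y : Type} [TopologicalSpace X] [TopologicalSpace Y]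
    (E : X → X → Prop) (F : Y → Y → Prop) : Prop :=
  ∃ f : X → Y, @Measurable X Y (borel X) (borel Y) f ∧ ∀ x x' : X, E x x' ↔ F (f x) (f x')

/-- Borel bi-reducibility -/
def BorelBireducible {X Y : Type} [TopologicalSpace X] [TopologicalSpace Y]
    (E : X → X → Prop) (F : Y → Y → Prop) : Prop :=
  BorelReducible E F ∧ BorelReducible F E

/-- **The iterated jump of equality is not a single jump.** Let `G`, `H` be countably infinite
groups and let `E` be the equality relation on a Polish space `X` with at least two points. Then
`(E^[G])^[H]` is not Borel reducible to `E^[K]` for any countable group `K`; in particular there is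
no countable group `K` with `(E^[G])^[H]` and `E^[K]` Borel bi-reducible. -/
theorem result (G H : Type) [Group G] [Countable G] [Infinite G] [Group H] [Countable H]
    [Infinite H] (X : Type) [TopologicalSpace X] [PolishSpace X] [Nontrivial X]
    (K : Type) [Group K] [Countable K] :
    ¬ BorelReducible (jump H (jump G (Eq : X → X → Prop))) (jump K (Eq : X → X → Prop)) ∧
    ¬ BorelBireducible (jump H (jump G (Eq : X → X → Prop))) (jump K (Eq : X → X → Prop)) := by
  have main : ¬ BorelReducible (jump H (jump G (Eq : X → X → Prop)))
      (jump K (Eq : X → X → Prop)) := by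
    rintro ⟨f, hf, hred⟩
    obtain ⟨a, b, hab⟩ := exists_pair_ne X
    let ι : Bool → X := fun t => if t then a else b
    have hι : Function.Injective ι := by
      intro s t h
      cases s <;> cases t <;> simp_all [ι]
    let J : (H → G → Bool) → (H → G → X) := fun α h g => ι (α h g)
    have hJc : Continuous J := by
      have : Continuous ι := continuous_of_discreteTopology
      fun_prop
    have hJ : ∀ α β, jump H (jump G (Eq : Bool → Bool → Prop)) α β ↔
        jump H (jump G (Eq : X → X → Prop)) (J α) (J β) := by
      intro α β
      constructor
      · rintro ⟨h, hh⟩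
        refine ⟨h, fun h' => ?_⟩
        obtain ⟨g, hg⟩ := hh h'
        exact ⟨g, fun x => congrArg ι (hg x)⟩
      · rintro ⟨h, hh⟩
        refine ⟨h, fun h' => ?_⟩
        obtain ⟨g, hg⟩ := hh h'
        exact ⟨g, fun x => hι (hg x)⟩
    borelize (H → G → X) (K → X) (H → G → Bool)
    refine no_countable (G := G) (H := H) (f ∘ J) (hf.comp hJc.measurable) ?_ ?_
    · intro α
      apply (Set.countable_range fun k : K => sh k (f (J α))).mono
      rintro y ⟨β, hβ, rfl⟩
      have := (hred _ _).mp ((hJ α β).mp hβ)
      rw [jump_eq_iff] at this
      exact this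
    · intro α β h
      rw [hJ, hred]
      change f (J α) = f (J β) at h
      rw [h]
      exact (jump_eq_iff _ _).mpr ⟨1, sh_one _⟩
  exact ⟨main, fun h => main h.1⟩

end Pool.Agent.Results.MP_9b97c3_lc.IteratedJump
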